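import Pool.Agent.Helper71.HN.AsmP3

/-!
MP_2a8cc2_nt, odd degree (or points near a rational root of `F`): a linear height bound, uniform in
`F`, for points `(x, y)` of `y ^ 2 = F x` over a number field (no condition on `y`), when in the mean
over the places above `∞` and above `S` the number `x` is near `a * r ^ 2` (`a` the leading
coefficient, `r` a quotient of sparse numbers) or near a root of a polynomial with small
coefficients; the same for `1 / (x - e)`, `F e = 0`, and `F' e` instead of `a`.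
-/

set_option autoImplicit false

namespace Pool.Agent.Results.MP_2a8cc2_nt.NearSquarePoints

/-- `h` is the absolute logarithmic height of the elements of `K` -/
def IsHeight (K : Type) [Field K] [NumberField K] (h : K → ℝ) : Prop := ∀ a : K, h a =
  ((∑ w : NumberField.InfinitePlace K, (w.mult : ℝ) * Real.log (max 1 (w a))) +
    ∑ᶠ v : NumberField.FinitePlace K, Real.log (max 1 (v a))) / (Module.finrank ℚ K : ℝ)

/-- `S` is a set of primes and `w p` is, for every `p ∈ S`, a non-archimedean absolute value of `ℂ`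
with `w p p = 1 / p`, so an extension of the `p`-adic absolute value of `ℚ` -/
def Ext (S : Finset ℕ) (w : ℕ → AbsoluteValue ℂ ℝ) : Prop := ∀ p ∈ S, p.Prime ∧
  (∀ a b, w p (a + b) ≤ max (w p a) (w p b)) ∧ w p (p : ℂ) = (p : ℝ)⁻¹

/-- the absolute value of `ℂ` for `o = none` (the usual one) and for `o = some p` (the one of `w`) -/
noncomputable def pv (w : ℕ → AbsoluteValue ℂ ℝ) (o : Option ℕ) (z : ℂ) : ℝ :=
  match o with
  | none => ‖z‖
  | some p => w p z

/-- `z` is `S`-integral: `k z` is an algebraic integer for some positive integer `k` all of whose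
prime factors are in `S` -/
def SInt {K : Type} [Field K] (S : Finset ℕ) (z : K) : Prop :=
  ∃ k : ℕ, (k ≠ 0 ∧ ∀ q : ℕ, q.Prime → q ∣ k → q ∈ S) ∧ IsIntegral ℤ ((k : K) * z)

/-- `a` is a sum of `t` products `b * γ` with `γ ∈ Γ` and `b ∈ K` of height `h b ≤ L`
(`b = 0` is allowed) -/
def SumOf {K : Type} [Field K] (h : K → ℝ) (Γ : Subgroup Kˣ) (t : ℕ) (L : ℝ) (a : K) : Prop :=
  ∃ (b : Fin t → K) (γ : Fin t → Kˣ), (∀ i, h (b i) ≤ L) ∧ (∀ i, γ i ∈ Γ) ∧
    a = ∑ i, b i * (γ i : K)

/-- `z` is near at the place `(o, τ)` with the cost `s`: there is a monic `G ∈ K[X]` of degree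
between `1` and `n` with coefficients of height at most `L` and
`|G z| ≤ exp (deg G * min s (2 * s))`; or there are `p` and `q ≠ 0` in `K`, sums of `t` terms, of
height at most `N`, with `|z - c * (p / q) ^ 2| ≤ exp s`, and `0 ≤ s` or `exp E ≤ |z|` -/
def Near {K : Type} [Field K] (h : K → ℝ) (Γ : Subgroup Kˣ) (t n : ℕ) (L N E : ℝ)
    (w : ℕ → AbsoluteValue ℂ ℝ) (c z : K) (o : Option ℕ) (τ : K →+* ℂ) (s : ℝ) : Prop :=
  (∃ G : Polynomial K, G.Monic ∧ 1 ≤ G.natDegree ∧ G.natDegree ≤ n ∧
    (∀ i, h (G.coeff i) ≤ L) ∧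
    pv w o (τ (G.eval z)) ≤ Real.exp (G.natDegree * min s (2 * s))) ∨
  ((0 ≤ s ∨ Real.exp E ≤ pv w o (τ z)) ∧ ∃ p q : K, SumOf h Γ t L p ∧ SumOf h Γ t L q ∧
    h p ≤ N ∧ h q ≤ N ∧ q ≠ 0 ∧ pv w o (τ (z - c * (p / q) ^ 2)) ≤ Real.exp s)

/-- for every number field `K`, every finite set `S` of primes, every finitely generated subgroup
`Γ` of `Kˣ`, all `t`, `n`, `B`, all `δ > 0` and all `d ≥ 3` there are `ε > 0` and constants `C₁`, `C₂`
such that `h x ≤ C₁ * H + C₂` for every separable `F` of degree `d` whose coefficients have height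
at most `H` and every point `(x, y)` of `y ^ 2 = F x` with coordinates in `K` for which there are
* `z`, `c ∈ K` such that `d` is odd, `z = x` and `c` is the leading coefficient of `F`, or
`x = e + 1 / z` with `h e ≤ ε * h x`, `F e = 0` and `c = F' e`,
* a positive integer `m` such that `m * z` is `S`-integral,
* and, for every `o ∈ {∞} ∪ S` and every embedding `τ : K → ℂ`, a number `s ≥ - B * h x` such that
`z` is near at `(o, τ)` with the cost `s` (with `L = ε * h x`, `N = B * h x`, `E = δ * h x`),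

such that `[K : ℚ] * log m + ∑ s + δ * h x ≤ 1 / 2 * ∑ log max 1 |z|`, the sums over all pairs
`(o, τ)` -/
theorem result :
    ∀ (K : Type) [Field K] [NumberField K] (h : K → ℝ), IsHeight K h →
      ∀ (S : Finset ℕ) (w : ℕ → AbsoluteValue ℂ ℝ), Ext S w →
      ∀ (Γ : Subgroup Kˣ) (t n d : ℕ) (δ B : ℝ), Γ.FG → 3 ≤ d → 0 < δ →
        ∃ ε C₁ C₂ : ℝ, 0 < ε ∧ 0 < C₁ ∧ 0 < C₂ ∧
          ∀ F : Polynomial K, F.natDegree = d → F.Separable →
            ∀ x y : K, y ^ 2 = F.eval x →
              ∀ H : ℝ, (∀ i : ℕ, h (F.coeff i) ≤ H) →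
                ∀ z c : K, ((Odd d ∧ x = z ∧ c = F.coeff d) ∨
                  ∃ e : K, h e ≤ ε * h x ∧ F.eval e = 0 ∧ z ≠ 0 ∧ x = e + 1 / z ∧
                    c = F.derivative.eval e) →
                  ∀ (m : ℕ) (s : Option ℕ → (K →+* ℂ) → ℝ), m ≠ 0 → SInt S ((m : K) * z) →
                    (∀ o ∈ Finset.insertNone S, ∀ τ : K →+* ℂ, -(B * h x) ≤ s o τ ∧
                      Near h Γ t n (ε * h x) (B * h x) (δ * h x) w c z o τ (s o τ)) →
                    (Module.finrank ℚ K : ℝ) * Real.log m +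
                        ∑ o ∈ Finset.insertNone S, ∑ τ : K →+* ℂ, s o τ + δ * h x ≤
                      1 / 2 * ∑ o ∈ Finset.insertNone S, ∑ τ : K →+* ℂ,
                        Real.log (max 1 (pv w o (τ z))) →
                    h x ≤ C₁ * H + C₂ :=
  Pool.Agent.Helper71.HP3.p3_fin

end Pool.Agent.Results.MP_2a8cc2_nt.NearSquarePoints
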