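import Pool.Agent.Helper9.MT.FinE

/-!
MP_2a8cc2_nt, over `ℚ`: a linear height bound, uniform in `F`, for all rational points of
`y ^ 2 = F x` for which the numerator and the denominator of `x` and the numerator of `y` (lowest
terms, no condition on the denominator of `y`) are sums of boundedly many terms `c * u`, where the
prime factors of `u` lie in a fixed finite set and `|c| ≤ exp (ε * h x)` (`ε > 0` given by the
theorem).
-/

set_option autoImplicit false

namespace Pool.Agent.Results.MP_2a8cc2_nt.SparsePoints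

/-- logarithmic height of a rational number, `log (max |num| den)` -/
noncomputable def ht (x : ℚ) : ℝ := Real.log (max |(x.num : ℝ)| (x.den : ℝ))

/-- `n` is a sum of `t` products `c * u` of integers with `|c| ≤ B` and `u ≠ 0` all of whose prime
factors lie in `S` (`c = 0` is allowed) -/
def SumOf (S : Finset ℕ) (t : ℕ) (B : ℝ) (n : ℤ) : Prop :=
  ∃ c u : Fin t → ℤ, (∀ i, |(c i : ℝ)| ≤ B) ∧
    (∀ i, u i ≠ 0 ∧ ∀ q : ℕ, q.Prime → (q : ℤ) ∣ u i → q ∈ S) ∧ n = ∑ i, c i * u i

/-- for every finite set `S` of primes, all `t` and `d ≥ 5` there are `ε > 0` and constants `C₁`,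
`C₂` such that `ht x ≤ C₁ * H + C₂` for every separable `F ∈ ℚ[X]` of degree `d` whose
coefficients have height at most `H` and every rational point `(x, y)` of `y ^ 2 = F x` for which
`x.num`, `x.den`, `y.num` are sums of `t` terms `c * u` as above with `|c| ≤ exp (ε * ht x)` -/
theorem result :
    ∀ (S : Finset ℕ) (t d : ℕ), (∀ p ∈ S, p.Prime) → 5 ≤ d →
      ∃ ε C₁ C₂ : ℝ, 0 < ε ∧ 0 < C₁ ∧ 0 < C₂ ∧
        ∀ F : Polynomial ℚ, F.natDegree = d → F.Separable →
          ∀ x y : ℚ, y ^ 2 = F.eval x →
            ∀ H : ℝ, (∀ i : ℕ, ht (F.coeff i) ≤ H) →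
              SumOf S t (Real.exp (ε * ht x)) x.num →
              SumOf S t (Real.exp (ε * ht x)) x.den →
              SumOf S t (Real.exp (ε * ht x)) y.num → ht x ≤ C₁ * H + C₂ :=
  Pool.Agent.Helper9.MT.t3e_

end Pool.Agent.Results.MP_2a8cc2_nt.SparsePoints
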