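import Pool.Agent.Helper9.MTK.FinE

/-!
MP_2a8cc2_nt: a linear height bound, uniform in `F`, for all points of `y ^ 2 = F x` over a number
field whose two coordinates are quotients of sums of boundedly many terms `c * γ`, where `γ` lies
in a fixed finitely generated subgroup of `Kˣ` and `c` has height at most `ε * h x` (`ε > 0` given
by the theorem).
-/

set_option autoImplicit false

namespace Pool.Agent.Results.MP_2a8cc2_nt.SparseQuotients

/-- `a` is a sum of `t` products `c * γ` with `γ ∈ Γ` and `c ∈ K` of height `h c ≤ B`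
(`c = 0` is allowed) -/
def SumOf {K : Type} [Field K] (h : K → ℝ) (Γ : Subgroup Kˣ) (t : ℕ) (B : ℝ) (a : K) : Prop :=
  ∃ (c : Fin t → K) (γ : Fin t → Kˣ), (∀ i, h (c i) ≤ B) ∧ (∀ i, γ i ∈ Γ) ∧
    a = ∑ i, c i * (γ i : K)

/-- `x` is a quotient of two such sums -/
def QuotOf {K : Type} [Field K] (h : K → ℝ) (Γ : Subgroup Kˣ) (t : ℕ) (B : ℝ) (x : K) : Prop :=
  ∃ a b : K, b ≠ 0 ∧ SumOf h Γ t B a ∧ SumOf h Γ t B b ∧ x = a / b

/-- for every number field `K`, every finitely generated subgroup `Γ` of `Kˣ`, all `t` and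
`d ≥ 5` there are `ε > 0` and constants `C₁`, `C₂` such that `h x ≤ C₁ * H + C₂` for every
separable `F` of degree `d` whose coefficients have height at most `H` and every point `(x, y)` of
`y ^ 2 = F x` both of whose coordinates are quotients of sums of `t` terms `c * γ`, `γ ∈ Γ`,
`h c ≤ ε * h x` -/
theorem result :
    ∀ (K : Type) [Field K] [NumberField K] (h : K → ℝ),
      (∀ a : K, h a =
        ((∑ w : NumberField.InfinitePlace K, (w.mult : ℝ) * Real.log (max 1 (w a))) +
          ∑ᶠ v : NumberField.FinitePlace K, Real.log (max 1 (v a))) /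
          (Module.finrank ℚ K : ℝ)) →
      ∀ (Γ : Subgroup Kˣ) (t d : ℕ), Γ.FG → 5 ≤ d →
        ∃ ε C₁ C₂ : ℝ, 0 < ε ∧ 0 < C₁ ∧ 0 < C₂ ∧
          ∀ F : Polynomial K, F.natDegree = d → F.Separable →
            ∀ x y : K, y ^ 2 = F.eval x →
              ∀ H : ℝ, (∀ i : ℕ, h (F.coeff i) ≤ H) →
                QuotOf h Γ t (ε * h x) x → QuotOf h Γ t (ε * h x) y →
                  h x ≤ C₁ * H + C₂ :=
  Pool.Agent.Helper9.MTK.t3ke_

end Pool.Agent.Results.MP_2a8cc2_nt.SparseQuotients
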